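import Pool.Agent.H98.FB.AB
import Pool.Agent.H61.FT.Core
import Pool.Agent.H81.LO.LamOne

/-!
Route S: `L y * L y = 1` for all involutions `y`, and the theorem.
-/

set_option autoImplicit false

namespace ALoop

open Equiv

variable {Q : Type*} {G : Subgroup (Perm Q)} {L : Q → Perm Q} {J : Perm Q} {e : Q}

namespace AL

theorem lamS_mem (h : AL G L J e) {w : Q} (hw : J w = w) : L w * L w ∈ Inn G e := by
  refine ⟨G.mul_mem (h.memL w) (h.memL w), ?_⟩
  show L w (L w e) = e
  rw [h.Le]
  have h2 := h.LJ w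
  rw [hw] at h2
  exact h2

theorem lamS_one [Finite Q] (h : AL G L J e) (hcardQ : 2 ∣ Nat.card Q) {y : Q} (hy : J y = y)
    (hye : y ≠ e) : L y * L y = 1 := by
  classical
  have hyv : Iv J e y := ⟨hy, hye⟩
  obtain ⟨-, -, hzI, hzz, -, -, hzJ⟩ := h.b_zz hyv
  let M := Inn G e
  let z : M := ⟨zz L J y, hzI⟩
  have hz : z * z = 1 := Subtype.ext hzz
  -- `z ≠ 1`
  have hz1 : z ≠ 1 := by
    intro h1
    have h2 : zz L J y = 1 := congrArg Subtype.val h1
    obtain ⟨b, hb, hb1, hbo, hbz⟩ := h.exists_odd hcardQ hy hye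
    have h3 : D L J y * J = 1 := h2
    rw [h3, one_mul, mul_one] at hbz
    apply hb1
    have h4 : b * b = 1 := by
      nth_rw 1 [hbz]; group
    have h5 : b ^ 2 = 1 := by rw [pow_two, h4]
    have h6 := orderOf_dvd_of_pow_eq_one h5
    have h7 : (orderOf b).Coprime 2 := (Nat.coprime_two_right).2 hbo
    have h8 : orderOf b = 1 := Nat.eq_one_of_dvd_one (by
      have := Nat.Coprime.eq_one_of_dvd h7 h6
      rw [this])
    exact orderOf_eq_one_iff.1 h8
  set S : Set M := {g | ∃ w, Iv J e w ∧ (g : Perm Q) = L w * L w} with hS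
  have hSn : ∀ g : M, ∀ s ∈ S, g * s * g⁻¹ ∈ S := by
    rintro g s ⟨w, hw, hs⟩
    refine ⟨(g : Perm Q) w, ⟨?_, ?_⟩, ?_⟩
    · have h1 := h.comJ g g.2.1 g.2.2
      have h2 := congrArg (fun t : Perm Q => t w) h1
      simp only [Perm.mul_apply] at h2
      rw [hw.1] at h2
      exact h2.symm
    · intro h1
      apply hw.2
      apply (g : Perm Q).injective
      have h2 : (g : Perm Q) e = e := g.2.2
      rw [h1, h2]
    · have h1 := h.equi g g.2.1 g.2.2 w
      show (g : Perm Q) * (s : Perm Q) * (g : Perm Q)⁻¹ = _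
      rw [hs, ← h1]
      group
  set Lam : Subgroup M := Subgroup.closure S with hLam
  have hLn : Lam.Normal := by
    constructor
    intro n hn g
    induction hn using Subgroup.closure_induction with
    | mem s hs => exact Subgroup.subset_closure (hSn g s hs)
    | one => simp
    | mul a b _ _ ha hb =>
      have : g * (a * b) * g⁻¹ = (g * a * g⁻¹) * (g * b * g⁻¹) := by group
      rw [this]
      exact Lam.mul_mem ha hb
    | inv a _ ha =>
      have : g * a⁻¹ * g⁻¹ = (g * a * g⁻¹)⁻¹ := by group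
      rw [this]
      exact Lam.inv_mem ha
  -- the set `K`
  have hKX : ∀ b : M, Odd (orderOf b) → z * b * z = b⁻¹ → KX G L J e y (b : Perm Q) := by
    intro b hbo hbz
    refine ⟨hyv, b.2, ⟨orderOf b, hbo, ?_⟩, ?_⟩
    · have := pow_orderOf_eq_one b
      exact congrArg Subtype.val this
    · have h1 : zz L J y * (b : Perm Q) * zz L J y = (b : Perm Q)⁻¹ := congrArg Subtype.val hbz
      have h2 : D L J y = zz L J y * J := by
        unfold zz; rw [mul_assoc, h.JJ1, mul_one]
      have h3 := h.comJ b b.2.1 b.2.2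
      rw [h2]
      calc zz L J y * J * (b : Perm Q) * (zz L J y * J)
          = zz L J y * (J * (b : Perm Q)) * (zz L J y * J) := by group
        _ = zz L J y * ((b : Perm Q) * J) * (J * zz L J y) := by rw [h3, hzJ]
        _ = zz L J y * (b : Perm Q) * (J * J) * zz L J y := by group
        _ = (b : Perm Q)⁻¹ := by rw [h.JJ1, mul_one, h1]
  have hXK : ∀ b : M, KX G L J e y (b : Perm Q) → Odd (orderOf b) ∧ z * b * z = b⁻¹ := by
    intro b o
    obtain ⟨n, hn, hbn⟩ := o.odd
    constructor
    · have h1 : b ^ n = 1 := Subtype.ext hbn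
      exact Odd.of_dvd_nat hn (orderOf_dvd_of_pow_eq_one h1)
    · apply Subtype.ext
      show zz L J y * (b : Perm Q) * zz L J y = (b : Perm Q)⁻¹
      have h3 := h.comJ b b.2.1 b.2.2
      calc zz L J y * (b : Perm Q) * zz L J y
          = D L J y * (J * (b : Perm Q)) * zz L J y := by unfold zz; group
        _ = D L J y * (b : Perm Q) * (J * zz L J y) := by rw [← h3]; group
        _ = D L J y * (b : Perm Q) * (zz L J y * J) := by rw [hzJ]
        _ = D L J y * (b : Perm Q) * D L J y * (J * J) := by unfold zz; group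
        _ = (b : Perm Q)⁻¹ := by rw [h.JJ1, mul_one, o.inv]
  have hstep : ∀ n ∈ Lam, ∀ b : M, KX G L J e y (b : Perm Q) →
      KX G L J e y ((n * b * n⁻¹ : M) : Perm Q) ∧ KX G L J e y ((n⁻¹ * b * n : M) : Perm Q) := by
    intro n hn
    induction hn using Subgroup.closure_induction with
    | mem s hs =>
      intro b o
      obtain ⟨w, hw, hs⟩ := hs
      obtain ⟨h1, h2⟩ := h.rs_B o hw
      constructor
      · show KX G L J e y ((s : Perm Q) * (b : Perm Q) * (s : Perm Q)⁻¹)
        rw [hs]; exact h1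
      · show KX G L J e y ((s : Perm Q)⁻¹ * (b : Perm Q) * (s : Perm Q))
        rw [hs]; exact h2
    | one => intro b o; simpa using o
    | mul a c _ _ ha hc =>
      intro b o
      constructor
      · have h1 := (ha _ (hc b o).1).1
        have h2 : a * (c * b * c⁻¹) * a⁻¹ = a * c * b * (a * c)⁻¹ := by group
        rw [h2] at h1
        exact h1
      · have h1 := (hc _ (ha b o).2).2
        have h2 : c⁻¹ * (a⁻¹ * b * a) * c = (a * c)⁻¹ * b * (a * c) := by group
        rw [h2] at h1
        exact h1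
    | inv a _ ha =>
      intro b o
      obtain ⟨h1, h2⟩ := ha b o
      rw [inv_inv]
      exact ⟨h2, h1⟩
  have hL := Pool.Agent.H61.FT.core (fun A hA hs => h.no_solvable hcardQ A hA hs)
    (fun A B hA hB hc => h.commuting_normal' hcardQ A B hA hB hc) Lam hLn hz hz1
    (fun n hn b hbo hbz => (hXK _ (hstep n hn b (hKX b hbo hbz)).2).2)
  have hmem : (⟨L y * L y, h.lamS_mem hy⟩ : M) ∈ Lam := Subgroup.subset_closure ⟨y, hyv, rfl⟩
  rw [hL, Subgroup.mem_bot] at hmem
  exact congrArg Subtype.val hmem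

/-- a finite simple automorphic loop of even order with a non-involution... is associative -/
theorem assoc_of_evenS [Finite Q] (h : AL G L J e) (hcardQ : 2 ∣ Nat.card Q) : Assoc L :=
  h.assoc_of_lam hcardQ (fun _ hy hye => h.lamS_one hcardQ hy hye)

end AL

end ALoop
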